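import Pool.Agent.PathAlg.Final

set_option autoImplicit false

/-!
A counterexample to Q1, over every field `k`.

The quiver has the vertices `x, y, z` and the arrows `a : x → y`, `b : y → y`, `c : y → z`,
`d : z → x`; the ideal is generated by `b b`, `b a` (first `a`, then `b`) and `d c`.  Write
`P_x = ⟨e_x, a, ca⟩` and `P_y = ⟨e_y, b, c, cb⟩`.  Then `Ω(S_x) = ⟨a, ca⟩ = L`, the module with
composition factors `S_y, S_z`, and `Ω(L) = ⟨b, cb⟩ ≅ L`.  So `Ω^n(S_x) ≅ L` for every `n ≥ 1`, the
projective dimension of `S_x` is infinite, and `e_x Ω^n(S_x) = 0` for every `n ≥ 1`.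
-/

namespace Pool.Agent.Results.MP_eb0abf_al.Counterexample

open Pool.Agent.PathAlg CategoryTheory

universe u

/-- For every field `k` there are a finite strongly connected quiver on a vertex set `V`, an
admissible ideal `I` of `kV` and a vertex `x` such that, for a simple `kV/I`-module `S` not killed
by `e_x` (so `S = S_x`), the projective dimension of `S` is infinite and, for every `n ≥ 1`, the
`n`-th syzygy of `S` exists and is killed by `e_x`. -/
theorem result (k : Type u) [Field k] :
    ∃ (V : Type) (_ : Fintype V) (_ : Quiver.{0} V) (_ : ∀ p q : V, Finite (p ⟶ q))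
      (I : Ideal (PathAlgebra k V)) (_ : I.IsTwoSided) (x : V)
      (S : ModuleCat.{u} (PathAlgebra k V ⧸ I)),
      Quiver.IsStronglyConnected V ∧ IsAdmissible I ∧ IsSimpleAt (vertexIdem I x) S ∧
        projectiveDimension S = ⊤ ∧ AvoidedFromOneOn (vertexIdem I x) S := by
  refine ⟨Vtx, inferInstance, inferInstance, inferInstance, II k, inferInstance, Vtx.x, SC k,
    strongly, admissible k, ⟨S_simple k, ?_⟩, S_pd k, ?_⟩
  · exact ⟨(show SM k from (1 : k)), fun h => one_ne_zero (α := k) ((ex_S k _).symm.trans h)⟩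
  · intro n hn
    obtain ⟨m, rfl⟩ : ∃ m, n = m + 1 := ⟨n - 1, by omega⟩
    refine ⟨⟨LC k, syzygy_exists k m⟩, fun N hN v => ?_⟩
    obtain ⟨e⟩ := syzygy_unique k m N hN
    apply e.injective
    rw [map_smul, map_zero]
    exact ex_L k (e v)

end Pool.Agent.Results.MP_eb0abf_al.Counterexample
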