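import Pool.Agent.SVR.Gl
import Pool.Agent.SVR.Abs5

set_option autoImplicit false

/-!
The version of the question that asks for SOME recurring vertex, for quivers with at most five vertices.

Call a vertex `y` essential for a finitely generated module `M` if `Ext^n(M, S_y) ≠ 0` for infinitely many `n`; let `A(x)` be
the set of the vertices which are essential for `S_x`.  If no vertex recurs, the following holds, for any number of vertices.

* `e_x Λ e_y = 0` for `y ∈ A(x)`: the top of a late syzygy of `S_x` lives on `A(x)`, and `e_x` kills it.
* If `y ∈ A(x)`, then `y ∈ A(z)` and `e_z Λ e_a ≠ 0` for some vertex `z` and some `a ∈ A(x)` (`z` is a composition factor of a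
  late syzygy).
* If `y ∈ A(x)`, then `y ∈ A(z)` and `e_z Λ e_x ≠ 0` for some vertex `z ≠ x`.  (Put `D_0 = S_x` and let `D_(i+1)` be the part of the
  kernel `N_i` of the projective cover of `D_i` which is generated by `e_x N_i`.  The identity of `S_x` gives maps
  `D_i → Ω^i(S_x)`, which are `0` for large `i`.  If the vertices `z` above are not essential in this sense, these maps are
  injective on the late Ext groups with values in `S_y`.)
* There is no closed walk of arrows all of whose consecutive products are `0` in `Λ`: along such a walk from `x` the `n`-th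
  vertex lies in the top of `Ω^n(S_x)`.

A search tree shows that with at most five vertices the first three conditions leave only the pentagon, `e_x Λ e_y ≠ 0` if and
only if `x - y ∈ {0, 1, -1}` modulo `5`, which has a closed walk as in the fourth.
-/

namespace Pool.Agent.Results.MP_eb0abf_al.FiveVertices

open Pool.Agent.PathAlg CategoryTheory

universe u

/-- Let `Λ = kV/I` for a field `k`, a finite quiver `V` with at most five vertices and an admissible ideal `I`, and let `Λ` have
infinite global dimension: for every `d` there is a finitely generated module which does not have projective dimension less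
than `d`.  Then there is a vertex `x` such that, for every simple module `S` with `e_x S ≠ 0` (so `S = S_x`; there is such an
`S`), there are infinitely many `n` such that the `n`-th syzygy of `S` exists and is not killed by `e_x`. -/
theorem result (k : Type u) [Field k] (V : Type) [Fintype V] [Quiver.{0} V] [∀ p q : V, Finite (p ⟶ q)]
    (hV : Fintype.card V ≤ 5) (I : Ideal (PathAlgebra k V)) [I.IsTwoSided] (hI : IsAdmissible I)
    (hgl : ∀ d : ℕ, ∃ M : ModuleCat.{u} (PathAlgebra k V ⧸ I),
      Module.Finite (PathAlgebra k V ⧸ I) M ∧ ¬ HasProjectiveDimensionLT M d) :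
    ∃ x : V, (∃ S : ModuleCat.{u} (PathAlgebra k V ⧸ I), IsSimpleAt (vertexIdem I x) S) ∧
      ∀ S : ModuleCat.{u} (PathAlgebra k V ⧸ I), IsSimpleAt (vertexIdem I x) S → ∀ m : ℕ, ∃ n : ℕ, m ≤ n ∧
        (∃ N : ModuleCat.{u} (PathAlgebra k V ⧸ I), IsSyzygy n S N) ∧
        ∀ N : ModuleCat.{u} (PathAlgebra k V ⧸ I), IsSyzygy n S N → ∃ v : N, vertexIdem I x • v ≠ 0 := by
  have h := SVR.quo_vr hI
  have hart := SVR.quo_art hI
  have hnoe := SVR.quo_noeth hI
  obtain ⟨x, y, hxy⟩ := SVR.gl_inf h hgl
  have hR : ∀ x, Nonempty (SVR.MinRes (SVR.Sm (vertexIdem I) (SVR.Jq I) x)) := fun x =>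
    SVR.exists_minRes _ (hM := by
      show Module.Finite _ (_ ⧸ SVR.Lz (vertexIdem I) (SVR.Jq I) x)
      infer_instance)
  let R := fun x => (hR x).some
  by_contra hc
  refine SVR.abs5 h hV R (fun x => ?_) x y hxy
  by_contra hno
  push Not at hno
  exact hc ⟨x, ⟨_, SVR.simpleAt_Sm h x⟩, fun S hS m => SVR.rec_of h (R x) hno hS m⟩

end Pool.Agent.Results.MP_eb0abf_al.FiveVertices
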