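import Pool.Agent.SVR.Gl
import Pool.Agent.SVR.Hub

set_option autoImplicit false

/-!
The version of the question that asks for SOME recurring vertex, for algebras which are directed up to one vertex.

Write `a → b` if `a ≠ b` and `e_a Λ e_b ≠ 0`.  Assume that all cycles of this relation pass through one vertex `v`, and that
no vertex recurs.  Let `B(y)` be the set of the vertices `x` with `Ext^n(S_x, S_y) ≠ 0` for infinitely many `n`.

* If `x ∈ B(y)`, then `e_x Λ e_y = 0`, because `e_x` kills the late syzygies of `S_x`.
* If `x ∈ B(y)`, then some `z ≠ x` in `B(y)` satisfies `z → x`.  (Put `D_0 = S_x` and let `D_(i+1)` be the part of the kernel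
  `N_i` of the projective cover of `D_i` which is generated by `e_x N_i`.  The identity of `S_x` gives maps
  `D_i → Ω^i(S_x)`, which are `0` for large `i`.  If there is no such `z`, these maps are injective on the late Ext groups
  with values in `S_y`.)  So `B(y)`, if it is not empty, contains a cycle, hence `v`.
* Let `y` be a vertex with `v ∈ B(y)` such that `y → a` for no `a` with `v ∈ B(a)`.  Then `e_y Λ e_y ≠ k e_y`, and there is a
  vertex `w ≠ y` with `e_y Λ e_w Λ e_y ≠ 0`: otherwise `e_y Λ e_y` is a quotient ring of `Λ`, and the minimal resolution of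
  `S_y` over `Λ` maps onto the minimal resolution over this local ring, which is infinite.  The cycle `y → w → y` passes
  through `v`, so `w = v` and `v → y`, which contradicts the first statement.
-/

namespace Pool.Agent.Results.MP_eb0abf_al.OneHub

open Pool.Agent.PathAlg CategoryTheory

universe u

/-- `Λ` has infinite global dimension: for every `d` there is a finitely generated module which does not have projective
dimension less than `d`. -/
def InfGlobalDim (Λ : Type u) [Ring Λ] : Prop :=
  ∀ d : ℕ, ∃ M : ModuleCat.{u} Λ, Module.Finite Λ M ∧ ¬ HasProjectiveDimensionLT M d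

/-- For infinitely many `n` the `n`-th syzygy `N` of `S` exists and is not killed by `e`. -/
def Recurs {Λ : Type u} [Ring Λ] (e : Λ) (S : ModuleCat.{u} Λ) : Prop :=
  ∀ m : ℕ, ∃ n : ℕ, m ≤ n ∧ (∃ N : ModuleCat.{u} Λ, IsSyzygy n S N) ∧
    ∀ N : ModuleCat.{u} Λ, IsSyzygy n S N → ∃ v : N, e • v ≠ 0

/-- Let `Λ = kQ/I` for a field `k`, a finite quiver `Q` with the set `V` of vertices and an admissible ideal `I`.  Assume that
`Λ` has infinite global dimension and that for some vertex `v` there is a function `f : V → ℕ` such that `f b < f a` whenever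
`a`, `b` are different vertices, both different from `v`, and `e_a Λ e_b ≠ 0`.  Then there is a vertex `x` such that, for
every simple module `S` with `e_x S ≠ 0` (so `S = S_x`; there is such an `S`), there are infinitely many `n` such that the
`n`-th syzygy of `S` exists and is not killed by `e_x`. -/
theorem result (k : Type u) [Field k] (V : Type) [Fintype V] [Quiver.{0} V] [∀ p q : V, Finite (p ⟶ q)]
    (I : Ideal (PathAlgebra k V)) [I.IsTwoSided] (hI : IsAdmissible I) (v : V) (f : V → ℕ)
    (hf : ∀ a b : V, a ≠ v → b ≠ v → a ≠ b → (∃ c, vertexIdem I a * c * vertexIdem I b ≠ 0) → f b < f a)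
    (hgl : InfGlobalDim (PathAlgebra k V ⧸ I)) :
    ∃ x : V, (∃ S : ModuleCat.{u} (PathAlgebra k V ⧸ I), IsSimpleAt (vertexIdem I x) S) ∧
      ∀ S : ModuleCat.{u} (PathAlgebra k V ⧸ I), IsSimpleAt (vertexIdem I x) S → Recurs (vertexIdem I x) S := by
  have h := SVR.quo_vr hI
  have hart := SVR.quo_art hI
  have hnoe := SVR.quo_noeth hI
  obtain ⟨x, y, hxy⟩ := SVR.gl_inf h hgl
  have hR : ∀ x, Nonempty (SVR.MinRes (SVR.Sm (vertexIdem I) (SVR.Jq I) x)) := fun x =>
    SVR.exists_minRes _ (hM := by
      show Module.Finite _ (_ ⧸ SVR.Lz (vertexIdem I) (SVR.Jq I) x)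
      infer_instance)
  let R := fun x => (hR x).some
  by_contra hc
  refine SVR.hub h v f hf R (fun x => ?_) x y hxy
  by_contra hno
  push Not at hno
  exact hc ⟨x, ⟨_, SVR.simpleAt_Sm h x⟩, fun S hS m => SVR.rec_of h (R x) hno hS m⟩

end Pool.Agent.Results.MP_eb0abf_al.OneHub
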