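import Pool.Agent.SVR.Slf
import Pool.Agent.SVR.Cub

set_option autoImplicit false

/-!
The version of the question that asks for SOME recurring vertex, for algebras whose radical has cube zero.

Let `J` be the radical of `Λ` and `J^3 = 0`.  Proof, by contradiction: assume that for each vertex `z` the groups
`Ext^n(S_z, S_z)` vanish for large `n`.

* Products.  If elements of degree one in the Ext algebra had nonzero products of arbitrarily high degree, a first return
  argument (by induction on the number of vertices visited) would give a vertex `z` with `Ext^n(S_z, S_z) ≠ 0` for infinitely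
  many `n`.
* Summands.  Write `z < x` if for some `n ≥ 1` the groups `Ext^(n+m)(S_x, S_y)` do not vanish whenever `Ext^m(S_z, S_y)` does
  not (for all `m` and `y`); for instance if `S_z` is a direct summand of `Ω^n(S_x)`.  This is a strict order, so we may
  assume that `S_z` has finite projective dimension for all `z < x`.
* If `J^2 M = 0` and `K` is the kernel of the projective cover `P` of `M`, then `J^2 P ⊆ K ⊆ J P`, and `K` is the direct sum of
  a complement `L` of `J K` in `J^2 P`, which is semisimple, and of a submodule `M'` with `M' ∩ J^2 P = J M'`.  Start with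
  `S_x` and iterate: the semisimple parts have finite projective dimension, so the modules `M'` do not vanish if the
  projective dimension of `S_x` is infinite.  A map from `M'` to `S_y` extends to `J P`, so its class in the Ext algebra is a
  sum of products with elements of degree one: there are nonzero products of elements of degree one in every degree.
-/

namespace Pool.Agent.Results.MP_eb0abf_al.RadCube

open Pool.Agent.PathAlg CategoryTheory

universe u

/-- `Λ` has infinite global dimension: for every `d` there is a finitely generated module which does not have projective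
dimension less than `d`. -/
def InfGlobalDim (Λ : Type u) [Ring Λ] : Prop :=
  ∀ d : ℕ, ∃ M : ModuleCat.{u} Λ, Module.Finite Λ M ∧ ¬ HasProjectiveDimensionLT M d

/-- For infinitely many `n` the `n`-th syzygy `N` of `S` exists, is not killed by `e` and has a nonzero homomorphism to `S`. -/
def SelfRecurs {Λ : Type u} [Ring Λ] (e : Λ) (S : ModuleCat.{u} Λ) : Prop :=
  ∀ m : ℕ, ∃ n : ℕ, m ≤ n ∧ (∃ N : ModuleCat.{u} Λ, IsSyzygy n S N) ∧
    ∀ N : ModuleCat.{u} Λ, IsSyzygy n S N → (∃ v : N, e • v ≠ 0) ∧ ∃ f : N →ₗ[Λ] S, f ≠ 0

/-- Let `Λ = kV/I` for a field `k`, a finite quiver `V` and an ideal `I` with `R^3 ⊆ I ⊆ R^2` (`R` is the ideal generated by the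
arrows), and let `Λ` have infinite global dimension.  Then there is a vertex `x` such that, for every simple module `S` with
`e_x S ≠ 0` (so `S = S_x`; there is such an `S`), there are infinitely many `n` such that the `n`-th syzygy `N` of `S` exists
and satisfies `e_x N ≠ 0`, and even has a nonzero homomorphism to `S`. -/
theorem result (k : Type u) [Field k] (V : Type) [Fintype V] [Quiver.{0} V] [∀ p q : V, Finite (p ⟶ q)]
    (I : Ideal (PathAlgebra k V)) [I.IsTwoSided] (h3 : arrowIdeal k V ^ 3 ≤ I) (h2 : I ≤ arrowIdeal k V ^ 2)
    (hgl : InfGlobalDim (PathAlgebra k V ⧸ I)) :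
    ∃ x : V, (∃ S : ModuleCat.{u} (PathAlgebra k V ⧸ I), IsSimpleAt (vertexIdem I x) S) ∧
      ∀ S : ModuleCat.{u} (PathAlgebra k V ⧸ I), IsSimpleAt (vertexIdem I x) S → SelfRecurs (vertexIdem I x) S := by
  have hI : IsAdmissible I := ⟨3, by norm_num, h3, h2⟩
  have h := SVR.quo_vr hI
  have hart := SVR.quo_art hI
  have hnoe := SVR.quo_noeth hI
  have hJ : ∀ a ∈ SVR.Jq I, ∀ b ∈ SVR.Jq I, ∀ c ∈ SVR.Jq I, a * b * c = 0 := by
    intro a ha b hb c hc
    obtain ⟨r, hr, h1⟩ := SVR.quo_list [a, b, c] (by
      intro d hd
      simp only [List.mem_cons, List.not_mem_nil, or_false] at hd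
      rcases hd with rfl | rfl | rfl
      · exact ha
      · exact hb
      · exact hc)
    have h4 : a * b * c = Ideal.Quotient.mk I r := by
      rw [h1]
      simp [mul_assoc]
    rw [h4]
    exact Ideal.Quotient.eq_zero_iff_mem.2 (h3 (SVR.quo_pow (by norm_num) hr))
  obtain ⟨x, y, hxy⟩ := SVR.gl_inf h hgl
  obtain ⟨z, hz⟩ := SVR.cub h hJ hxy
  obtain ⟨R⟩ := SVR.exists_minRes (SVR.Sm (vertexIdem I) (SVR.Jq I) z) (hM := by
      show Module.Finite _ (_ ⧸ SVR.Lz (vertexIdem I) (SVR.Jq I) z)
      infer_instance)
  exact ⟨z, ⟨_, SVR.simpleAt_Sm h z⟩, fun S hS m => SVR.rec_self h R hz hS m⟩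

end Pool.Agent.Results.MP_eb0abf_al.RadCube
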